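import Mathlib

/-!
A meromorphic function in the plane, not rational, without any Yang Lo direction.

The function is `f(z) = sum_n y_n^6 g(z / y_n^5)`, where `g(u) = u^2 / (1 + u^4)` and
`y_n = 2^(16^n)`, put in normal form (value `0` at the poles).
In the zone `y_n <= |z| <= y_(n+1)` the `n`-th term dominates: the remainder and its derivatives
tend to zero.  Off the four pole directions `f` omits `1` or `-1` and `f''` tends to zero.
In thin sectors about the pole directions `f` omits `1` and `f'` omits a unimodular value.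
-/

open Filter Topology Set

namespace Pool.Agent.Results.MP_bf5cf5_an.NoYangLoDirection

/-- The open sector `|arg z - θ₀| < ε`: all `z = r e^{iθ}` with `r > 0` and `|θ - θ₀| < ε`. -/
def sector (θ₀ ε : ℝ) : Set ℂ :=
  {z | ∃ r θ : ℝ, 0 < r ∧ |θ - θ₀| < ε ∧ z = (r : ℂ) * Complex.exp ((θ : ℂ) * Complex.I)}

/-- The solutions of `f^{(k)}(z) = w` (`k = 0` gives `f(z) = w`): points `z` at which `f` is
analytic, that is, `z` is not a pole of the meromorphic function `f`, and `f^{(k)}(z) = w`. -/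
def solutions (f : ℂ → ℂ) (k : ℕ) (w : ℂ) : Set ℂ :=
  {z | AnalyticAt ℂ f z ∧ iteratedDeriv k f z = w}

/-- `θ₀` is a Yang Lo direction of `f`: for every `ε > 0`, either `f = a` has infinitely many
solutions in the sector for every finite `a`, or `f^{(k)} = w` has infinitely many solutions in
the sector for every `k ≥ 1` and every finite `w ≠ 0`. -/
def IsYangLoDirection (f : ℂ → ℂ) (θ₀ : ℝ) : Prop :=
  ∀ ε : ℝ, 0 < ε →
    (∀ a : ℂ, (sector θ₀ ε ∩ solutions f 0 a).Infinite) ∨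
    (∀ k : ℕ, 1 ≤ k → ∀ w : ℂ, w ≠ 0 → (sector θ₀ ε ∩ solutions f k w).Infinite)

/-- `f` is rational: it equals a quotient of polynomials `P / Q` off the zeros of `Q ≠ 0`. -/
def IsRational (f : ℂ → ℂ) : Prop :=
  ∃ P Q : Polynomial ℂ, Q ≠ 0 ∧ ∀ z : ℂ, Q.eval z ≠ 0 → f z = P.eval z / Q.eval z

/-- kernel -/
noncomputable def g (u : ℂ) : ℂ := u ^ 2 / (1 + u ^ 4)

noncomputable def y (n : ℕ) : ℝ := (2 : ℝ) ^ (16 ^ n)

noncomputable def T (n : ℕ) (z : ℂ) : ℂ := ((y n : ℝ) : ℂ) ^ 6 * g (z / ((y n : ℝ) : ℂ) ^ 5)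

noncomputable def F (z : ℂ) : ℂ := ∑' n, T n z

lemma y_succ (n : ℕ) : y (n + 1) = y n ^ 16 := by
  unfold y
  rw [← pow_mul, pow_succ]

lemma two_le_y (n : ℕ) : 2 ≤ y n := by
  unfold y
  calc (2:ℝ) = 2 ^ 1 := by norm_num
    _ ≤ 2 ^ (16 ^ n) := pow_le_pow_right₀ (by norm_num) (Nat.one_le_pow _ _ (by norm_num))

lemma y_pos (n : ℕ) : 0 < y n := by linarith [two_le_y n]

lemma y_mono : StrictMono y := by
  apply strictMono_nat_of_lt_succ
  intro n
  unfold y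
  exact pow_lt_pow_right₀ (by norm_num) (Nat.pow_lt_pow_right (by norm_num) (Nat.lt_succ_self n))

lemma four_pow_le_y (n : ℕ) : (4 : ℝ) ^ n ≤ y n := by
  unfold y
  have h : (4:ℝ) ^ n = 2 ^ (2 * n) := by rw [pow_mul]; norm_num
  rw [h]
  apply pow_le_pow_right₀ (by norm_num)
  have : n < 16 ^ n := Nat.lt_pow_self (by norm_num)
  rcases Nat.eq_zero_or_pos n with h0 | h0
  · subst h0; norm_num
  · obtain ⟨k, rfl⟩ : ∃ k, n = k + 1 := ⟨n - 1, by omega⟩
    have : k < 16 ^ k := Nat.lt_pow_self (by norm_num)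
    rw [pow_succ]
    omega

lemma y_pow_le {m n : ℕ} (h : m < n) : y m ^ 16 ≤ y n := by
  rw [← y_succ]
  exact y_mono.monotone h

lemma two_pow_le_y (n : ℕ) : (2 : ℝ) ^ n ≤ y n :=
  le_trans (pow_le_pow_left₀ (by norm_num) (by norm_num) n) (four_pow_le_y n)

lemma g_small {u : ℂ} (h : ‖u‖ ≤ 1 / 2) : 1 + u ^ 4 ≠ 0 ∧ ‖g u‖ ≤ 2 * ‖u‖ ^ 2 := by
  have h4 : ‖u ^ 4‖ ≤ 1 / 16 := by
    rw [norm_pow]
    calc ‖u‖ ^ 4 ≤ (1 / 2) ^ 4 := pow_le_pow_left₀ (norm_nonneg _) h 4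
      _ = 1 / 16 := by norm_num
  have h1 : 1 / 2 ≤ ‖1 + u ^ 4‖ := by
    have := norm_sub_norm_le (1 : ℂ) (-(u ^ 4))
    rw [norm_neg, sub_neg_eq_add, norm_one] at this
    linarith
  constructor
  · intro h0
    rw [h0, norm_zero] at h1
    linarith
  · unfold g
    rw [norm_div, norm_pow, div_le_iff₀ (by linarith)]
    nlinarith [sq_nonneg ‖u‖]

lemma g_large {u : ℂ} (h : 2 ≤ ‖u‖) : 1 + u ^ 4 ≠ 0 ∧ ‖g u‖ ≤ 2 / ‖u‖ ^ 2 := by
  have h4 : 16 ≤ ‖u‖ ^ 4 := by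
    calc (16 : ℝ) = 2 ^ 4 := by norm_num
      _ ≤ ‖u‖ ^ 4 := pow_le_pow_left₀ (by norm_num) h 4
  have h1 : ‖u‖ ^ 4 / 2 ≤ ‖1 + u ^ 4‖ := by
    have := norm_sub_norm_le (u ^ 4) (-(1 : ℂ))
    rw [norm_neg, sub_neg_eq_add, norm_one, norm_pow, add_comm] at this
    linarith
  constructor
  · intro h0
    rw [h0, norm_zero] at h1
    linarith
  · unfold g
    have h2 : 0 < ‖u‖ ^ 2 := by positivity
    rw [norm_div, norm_pow, div_le_div_iff₀ (by linarith) h2]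
    nlinarith [sq_nonneg ‖u‖]

lemma norm_arg (n : ℕ) (z : ℂ) : ‖z / ((y n : ℝ) : ℂ) ^ 5‖ = ‖z‖ / y n ^ 5 := by
  rw [norm_div, norm_pow, Complex.norm_real, Real.norm_of_nonneg (y_pos n).le]

lemma norm_T (n : ℕ) (z : ℂ) : ‖T n z‖ = y n ^ 6 * ‖g (z / ((y n : ℝ) : ℂ) ^ 5)‖ := by
  unfold T
  rw [norm_mul, norm_pow, Complex.norm_real, Real.norm_of_nonneg (y_pos n).le]

lemma T_tail {m N : ℕ} (h : N ≤ m) {z : ℂ} (hz : ‖z‖ ≤ 2 * y N) :
    1 + (z / ((y m : ℝ) : ℂ) ^ 5) ^ 4 ≠ 0 ∧ ‖T m z‖ ≤ 8 / y m ^ 2 := by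
  have hy := two_le_y m
  have hy0 := y_pos m
  have hz2 : ‖z‖ ≤ 2 * y m := hz.trans (by linarith [y_mono.monotone h])
  have h4 : (16:ℝ) ≤ y m ^ 4 := by
    calc (16 : ℝ) = 2 ^ 4 := by norm_num
      _ ≤ y m ^ 4 := pow_le_pow_left₀ (by norm_num) hy 4
  have hu : ‖z / ((y m : ℝ) : ℂ) ^ 5‖ ≤ 1 / 2 := by
    rw [norm_arg, div_le_iff₀ (by positivity)]
    nlinarith
  obtain ⟨h1, h2⟩ := g_small hu
  refine ⟨h1, ?_⟩
  rw [norm_T]
  calc y m ^ 6 * ‖g (z / ((y m : ℝ) : ℂ) ^ 5)‖ ≤ y m ^ 6 * (2 * ‖z / ((y m : ℝ) : ℂ) ^ 5‖ ^ 2) := by gcongr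
    _ = 2 * ‖z‖ ^ 2 / y m ^ 4 := by
      rw [norm_arg]; field_simp
    _ ≤ 2 * (2 * y m) ^ 2 / y m ^ 4 := by gcongr
    _ = 8 / y m ^ 2 := by field_simp; ring

lemma T_head {m n : ℕ} (h : m < n) {z : ℂ} (hz : y n / 2 ≤ ‖z‖) :
    1 + (z / ((y m : ℝ) : ℂ) ^ 5) ^ 4 ≠ 0 ∧ ‖T m z‖ ≤ 8 / y n := by
  have hy := two_le_y m
  have hy0 := y_pos m
  have hn0 := y_pos n
  have hmn := y_pow_le h
  have hu : 2 ≤ ‖z / ((y m : ℝ) : ℂ) ^ 5‖ := by
    rw [norm_arg, le_div_iff₀ (by positivity)]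
    have h1 : (4:ℝ) ≤ y m ^ 11 := by
      calc (4:ℝ) = 2 ^ 2 := by norm_num
        _ ≤ 2 ^ 11 := by norm_num
        _ ≤ y m ^ 11 := pow_le_pow_left₀ (by norm_num) hy 11
    have h2 : 4 * y m ^ 5 ≤ y m ^ 16 := by
      calc 4 * y m ^ 5 ≤ y m ^ 11 * y m ^ 5 := by gcongr
        _ = y m ^ 16 := by ring
    linarith
  obtain ⟨h1, h2⟩ := g_large hu
  refine ⟨h1, ?_⟩
  rw [norm_T]
  have hz0 : 0 < ‖z‖ := by linarith
  calc y m ^ 6 * ‖g (z / ((y m : ℝ) : ℂ) ^ 5)‖ ≤ y m ^ 6 * (2 / ‖z / ((y m : ℝ) : ℂ) ^ 5‖ ^ 2) := by gcongr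
    _ = 2 * y m ^ 16 / ‖z‖ ^ 2 := by
      rw [norm_arg]; field_simp
    _ ≤ 2 * y n / (y n / 2) ^ 2 := by gcongr
    _ = 8 / y n := by field_simp; ring

lemma T_differentiableAt {n : ℕ} {z : ℂ} (h : 1 + (z / ((y n : ℝ) : ℂ) ^ 5) ^ 4 ≠ 0) :
    DifferentiableAt ℂ (T n) z := by
  unfold T g
  fun_prop (disch := exact h)

lemma T_meromorphicAt (n : ℕ) (z : ℂ) : MeromorphicAt (T n) z := by
  unfold T g
  fun_prop

noncomputable def tail (N : ℕ) (z : ℂ) : ℂ := ∑' m, T (m + N) z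

lemma tail_bound (N m : ℕ) {z : ℂ} (hz : ‖z‖ ≤ 2 * y N) :
    ‖T (m + N) z‖ ≤ (8 / y N) * (1 / 2) ^ m := by
  refine (T_tail (Nat.le_add_left N m) hz).2.trans ?_
  have h1 : y N ≤ y (m + N) := y_mono.monotone (Nat.le_add_left N m)
  have h2 : (2:ℝ) ^ m ≤ y (m + N) :=
    (pow_le_pow_right₀ (by norm_num) (Nat.le_add_right m N)).trans (two_pow_le_y (m + N))
  have h3 : y N * 2 ^ m ≤ y (m + N) ^ 2 := by
    rw [sq]
    gcongr
    exact (y_pos _).le
  have hN := y_pos N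
  calc 8 / y (m + N) ^ 2 ≤ 8 / (y N * 2 ^ m) := by gcongr
    _ = (8 / y N) * (1 / 2) ^ m := by rw [one_div, inv_pow]; field_simp

lemma tail_summable_bound (N : ℕ) : Summable (fun m : ℕ => (8 / y N) * (1 / 2 : ℝ) ^ m) :=
  (summable_geometric_of_lt_one (by norm_num) (by norm_num)).mul_left _

lemma tail_summable (N : ℕ) {z : ℂ} (hz : ‖z‖ ≤ 2 * y N) : Summable (fun m => T (m + N) z) :=
  Summable.of_norm_bounded (tail_summable_bound N) (fun m => tail_bound N m hz)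

lemma tail_norm (N : ℕ) {z : ℂ} (hz : ‖z‖ ≤ 2 * y N) : ‖tail N z‖ ≤ 16 / y N := by
  unfold tail
  refine (tsum_of_norm_bounded (tail_summable_bound N).hasSum (fun m => tail_bound N m hz)).trans ?_
  rw [tsum_mul_left, tsum_geometric_two]
  have := y_pos N
  apply le_of_eq
  field_simp
  norm_num

lemma tail_differentiableOn (N : ℕ) :
    DifferentiableOn ℂ (tail N) (Metric.ball 0 (2 * y N)) := by
  unfold tail
  refine Complex.differentiableOn_tsum_of_summable_norm (tail_summable_bound N) ?_ Metric.isOpen_ball ?_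
  · intro m z hz
    rw [mem_ball_zero_iff] at hz
    exact (T_differentiableAt (T_tail (Nat.le_add_left N m) hz.le).1).differentiableWithinAt
  · intro m z hz
    rw [mem_ball_zero_iff] at hz
    exact tail_bound N m hz.le

lemma exists_lt_y (r : ℝ) : ∃ N, r < y N := by
  obtain ⟨n, hn⟩ := pow_unbounded_of_one_lt r (one_lt_two : (1:ℝ) < 2)
  exact ⟨n, hn.trans_le (two_pow_le_y n)⟩

lemma T_summable (z : ℂ) : Summable (fun m => T m z) := by
  obtain ⟨N, hN⟩ := exists_lt_y ‖z‖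
  rw [← summable_nat_add_iff N]
  exact tail_summable N (by linarith [y_pos N])

lemma F_eq_head_add_tail (N : ℕ) (z : ℂ) :
    F z = (∑ m ∈ Finset.range N, T m z) + tail N z := by
  unfold F tail
  exact ((T_summable z).sum_add_tsum_nat_add N).symm

lemma F_meromorphicAt (z : ℂ) : MeromorphicAt F z := by
  obtain ⟨N, hN⟩ := exists_lt_y ‖z‖
  have h1 : F = (fun z => (∑ m ∈ Finset.range N, T m z) + tail N z) := by
    ext z; exact F_eq_head_add_tail N z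
  rw [h1]
  have hz : z ∈ Metric.ball (0 : ℂ) (2 * y N) := by
    rw [mem_ball_zero_iff]; linarith [y_pos N]
  have h2 : AnalyticAt ℂ (tail N) z :=
    (tail_differentiableOn N).analyticAt (Metric.isOpen_ball.mem_nhds hz)
  have h3 : MeromorphicAt (fun z => ∑ m ∈ Finset.range N, T m z) z :=
    MeromorphicAt.fun_sum (fun m _ => T_meromorphicAt m z)
  exact h3.add h2.meromorphicAt

/-- error term in zone n -/
noncomputable def E (n : ℕ) (z : ℂ) : ℂ := (∑ m ∈ Finset.range n, T m z) + tail (n + 1) z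

lemma F_eq (n : ℕ) (z : ℂ) : F z = T n z + E n z := by
  rw [F_eq_head_add_tail (n + 1), Finset.sum_range_succ]
  unfold E
  ring

noncomputable def δ (n : ℕ) : ℝ := (8 * n + 16) / y n

lemma δ_tendsto : Tendsto δ atTop (𝓝 0) := by
  have h1 : Tendsto (fun n : ℕ => 24 * (1 / 2 : ℝ) ^ n) atTop (𝓝 0) := by
    have := (tendsto_pow_atTop_nhds_zero_of_lt_one (by norm_num : (0:ℝ) ≤ 1 / 2) (by norm_num)).const_mul 24
    simpa using this
  refine squeeze_zero ?_ ?_ h1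
  · intro n
    unfold δ
    have := y_pos n
    positivity
  · intro n
    unfold δ
    have h4 := four_pow_le_y n
    have h2 : (n : ℝ) ≤ 2 ^ n := by exact_mod_cast Nat.lt_two_pow_self.le
    have h3 : (1 : ℝ) ≤ 2 ^ n := one_le_pow₀ (by norm_num)
    have hy := y_pos n
    rw [div_le_iff₀ hy]
    calc 8 * (n:ℝ) + 16 ≤ 24 * 2 ^ n := by linarith
      _ = 24 * (1 / 2) ^ n * 4 ^ n := by
        rw [mul_assoc, ← mul_pow]; norm_num
      _ ≤ 24 * (1 / 2) ^ n * y n := by gcongr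

lemma δ_nonneg (n : ℕ) : 0 ≤ δ n := by
  unfold δ
  have := y_pos n
  positivity

lemma E_bound {n : ℕ} {z : ℂ} (h1 : y n / 2 ≤ ‖z‖) (h2 : ‖z‖ ≤ 2 * y (n + 1)) :
    ‖E n z‖ ≤ δ n := by
  unfold E δ
  have hn := y_pos n
  have hA : ‖∑ m ∈ Finset.range n, T m z‖ ≤ n * (8 / y n) := by
    refine (norm_sum_le_of_le _ (fun m hm => (T_head (Finset.mem_range.1 hm) h1).2)).trans ?_
    simp
  have hB : ‖tail (n + 1) z‖ ≤ 16 / y n := by
    refine (tail_norm (n + 1) h2).trans ?_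
    have : y n ≤ y (n + 1) := y_mono.monotone (Nat.le_succ n)
    gcongr
  refine (norm_add_le _ _).trans ((add_le_add hA hB).trans (le_of_eq ?_))
  field_simp

lemma E_differentiableAt {n : ℕ} {z : ℂ} (h1 : y n / 2 ≤ ‖z‖) (h2 : ‖z‖ < 2 * y (n + 1)) :
    DifferentiableAt ℂ (E n) z := by
  unfold E
  refine DifferentiableAt.add ?_ ?_
  · refine DifferentiableAt.fun_sum (fun m hm => ?_)
    exact T_differentiableAt (T_head (Finset.mem_range.1 hm) h1).1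
  · refine (tail_differentiableOn (n + 1)).differentiableAt (Metric.isOpen_ball.mem_nhds ?_)
    rwa [mem_ball_zero_iff]



/-- first derivative of the kernel -/
noncomputable def g1 (u : ℂ) : ℂ := 2 * u * (1 - u ^ 4) / (1 + u ^ 4) ^ 2

/-- second derivative of the kernel -/
noncomputable def g2 (u : ℂ) : ℂ := (2 - 24 * u ^ 4 + 6 * u ^ 8) / (1 + u ^ 4) ^ 3

lemma g_hasDerivAt {u : ℂ} (h : 1 + u ^ 4 ≠ 0) : HasDerivAt g (g1 u) u := by
  have h1 : HasDerivAt (fun u : ℂ => u ^ 2) (2 * u) u := by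
    simpa using hasDerivAt_pow 2 u
  have h2 : HasDerivAt (fun u : ℂ => 1 + u ^ 4) (4 * u ^ 3) u := by
    simpa using (hasDerivAt_pow 4 u).const_add 1
  have h3 : HasDerivAt g _ u := h1.fun_div h2 h
  refine h3.congr_deriv ?_
  unfold g1
  field_simp
  ring

lemma g1_hasDerivAt {u : ℂ} (h : 1 + u ^ 4 ≠ 0) : HasDerivAt g1 (g2 u) u := by
  have h1 : HasDerivAt (fun u : ℂ => 2 * u * (1 - u ^ 4)) (2 * (1 - u ^ 4) + 2 * u * (-(4 * u ^ 3))) u := by
    have ha : HasDerivAt (fun u : ℂ => 2 * u) 2 u := by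
      simpa using (hasDerivAt_id u).const_mul 2
    have hb : HasDerivAt (fun u : ℂ => 1 - u ^ 4) (-(4 * u ^ 3)) u := by
      simpa using (hasDerivAt_pow 4 u).const_sub 1
    exact ha.mul hb
  have h2 : HasDerivAt (fun u : ℂ => (1 + u ^ 4) ^ 2) (2 * (1 + u ^ 4) * (4 * u ^ 3)) u := by
    have hc : HasDerivAt (fun u : ℂ => 1 + u ^ 4) (4 * u ^ 3) u := by
      simpa using (hasDerivAt_pow 4 u).const_add 1
    simpa using hc.fun_pow 2
  have h3 : HasDerivAt g1 _ u := h1.fun_div h2 (pow_ne_zero 2 h)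
  refine h3.congr_deriv ?_
  unfold g2
  field_simp
  ring

lemma T_hasDerivAt {n : ℕ} {z : ℂ} (h : 1 + (z / ((y n : ℝ) : ℂ) ^ 5) ^ 4 ≠ 0) :
    HasDerivAt (T n) (((y n : ℝ) : ℂ) * g1 (z / ((y n : ℝ) : ℂ) ^ 5)) z := by
  have hy : ((y n : ℝ) : ℂ) ≠ 0 := by exact_mod_cast (y_pos n).ne'
  have h1 : HasDerivAt (fun z : ℂ => z / ((y n : ℝ) : ℂ) ^ 5) (1 / ((y n : ℝ) : ℂ) ^ 5) z :=
    (hasDerivAt_id z).div_const _
  have h2 : HasDerivAt (T n) _ z := ((g_hasDerivAt h).comp z h1).const_mul (((y n : ℝ) : ℂ) ^ 6)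
  refine h2.congr_deriv ?_
  field_simp

lemma T1_hasDerivAt {n : ℕ} {z : ℂ} (h : 1 + (z / ((y n : ℝ) : ℂ) ^ 5) ^ 4 ≠ 0) :
    HasDerivAt (fun z => ((y n : ℝ) : ℂ) * g1 (z / ((y n : ℝ) : ℂ) ^ 5))
      (g2 (z / ((y n : ℝ) : ℂ) ^ 5) / ((y n : ℝ) : ℂ) ^ 4) z := by
  have hy : ((y n : ℝ) : ℂ) ≠ 0 := by exact_mod_cast (y_pos n).ne'
  have h1 : HasDerivAt (fun z : ℂ => z / ((y n : ℝ) : ℂ) ^ 5) (1 / ((y n : ℝ) : ℂ) ^ 5) z :=
    (hasDerivAt_id z).div_const _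
  have h2 := ((g1_hasDerivAt h).comp z h1).const_mul (((y n : ℝ) : ℂ))
  refine h2.congr_deriv ?_
  field_simp

lemma den_eventually {n : ℕ} {z : ℂ} (h : 1 + (z / ((y n : ℝ) : ℂ) ^ 5) ^ 4 ≠ 0) :
    ∀ᶠ ζ in 𝓝 z, 1 + (ζ / ((y n : ℝ) : ℂ) ^ 5) ^ 4 ≠ 0 := by
  have hc : ContinuousAt (fun ζ : ℂ => 1 + (ζ / ((y n : ℝ) : ℂ) ^ 5) ^ 4) z := by fun_prop
  exact hc.eventually_ne h

lemma T_deriv2 {n : ℕ} {z : ℂ} (h : 1 + (z / ((y n : ℝ) : ℂ) ^ 5) ^ 4 ≠ 0) :
    iteratedDeriv 2 (T n) z = g2 (z / ((y n : ℝ) : ℂ) ^ 5) / ((y n : ℝ) : ℂ) ^ 4 := by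
  rw [iteratedDeriv_succ, iteratedDeriv_one]
  have h1 : deriv (T n) =ᶠ[𝓝 z] (fun z => ((y n : ℝ) : ℂ) * g1 (z / ((y n : ℝ) : ℂ) ^ 5)) := by
    filter_upwards [den_eventually h] with ζ hζ
    exact (T_hasDerivAt hζ).deriv
  rw [h1.deriv_eq]
  exact (T1_hasDerivAt h).deriv

lemma T_analyticAt {n : ℕ} {z : ℂ} (h : 1 + (z / ((y n : ℝ) : ℂ) ^ 5) ^ 4 ≠ 0) :
    AnalyticAt ℂ (T n) z := by
  rw [Complex.analyticAt_iff_eventually_differentiableAt]
  filter_upwards [den_eventually h] with ζ hζ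
  exact T_differentiableAt hζ

/-- the disc of radius one about a point of zone `n` stays in the larger zone -/
lemma zone_disc {n : ℕ} (hn : 1 ≤ n) {z ζ : ℂ} (h1 : 3 / 4 * y n ≤ ‖z‖) (h2 : ‖z‖ ≤ 3 / 2 * y (n + 1))
    (hζ : ζ ∈ Metric.closedBall z 1) : y n / 2 ≤ ‖ζ‖ ∧ ‖ζ‖ < 2 * y (n + 1) := by
  rw [mem_closedBall_iff_norm] at hζ
  have hy : 4 ≤ y n := by
    have := four_pow_le_y n
    have h4 : (4:ℝ) ^ 1 ≤ 4 ^ n := pow_le_pow_right₀ (by norm_num) hn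
    linarith
  have hyn : y n < y (n + 1) := y_mono (Nat.lt_succ_self n)
  have ha := norm_sub_norm_le ζ z
  have hb := norm_sub_norm_le z ζ
  rw [norm_sub_rev] at hb
  constructor <;> linarith

lemma E_analyticAt {n : ℕ} (hn : 1 ≤ n) {z : ℂ} (h1 : 3 / 4 * y n ≤ ‖z‖) (h2 : ‖z‖ ≤ 3 / 2 * y (n + 1)) :
    AnalyticAt ℂ (E n) z := by
  rw [Complex.analyticAt_iff_eventually_differentiableAt]
  filter_upwards [Metric.closedBall_mem_nhds z one_pos] with ζ hζ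
  obtain ⟨ha, hb⟩ := zone_disc hn h1 h2 hζ
  exact E_differentiableAt ha hb

lemma E_deriv_bound (k : ℕ) {n : ℕ} (hn : 1 ≤ n) {z : ℂ} (h1 : 3 / 4 * y n ≤ ‖z‖)
    (h2 : ‖z‖ ≤ 3 / 2 * y (n + 1)) : ‖iteratedDeriv k (E n) z‖ ≤ k.factorial * δ n := by
  have := Complex.norm_iteratedDeriv_le_of_forall_mem_sphere_norm_le (f := E n) (c := z) (R := 1)
    (C := δ n) k one_pos ?_ ?_
  · simpa using this
  · apply DifferentiableOn.diffContOnCl
    intro ζ hζ
    rw [closure_ball z one_ne_zero] at hζ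
    obtain ⟨ha, hb⟩ := zone_disc hn h1 h2 hζ
    exact (E_differentiableAt ha hb).differentiableWithinAt
  · intro ζ hζ
    obtain ⟨ha, hb⟩ := zone_disc hn h1 h2 (Metric.sphere_subset_closedBall hζ)
    exact E_bound ha hb.le

lemma F_iteratedDeriv (k : ℕ) {n : ℕ} (hn : 1 ≤ n) {z : ℂ} (h1 : 3 / 4 * y n ≤ ‖z‖)
    (h2 : ‖z‖ ≤ 3 / 2 * y (n + 1)) (h : 1 + (z / ((y n : ℝ) : ℂ) ^ 5) ^ 4 ≠ 0) :
    iteratedDeriv k F z = iteratedDeriv k (T n) z + iteratedDeriv k (E n) z := by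
  have hF : F = T n + E n := by
    ext z; exact F_eq n z
  rw [hF]
  exact iteratedDeriv_add ((T_analyticAt h).contDiffAt) ((E_analyticAt hn h1 h2).contDiffAt)

lemma exists_zone {N : ℕ} {z : ℂ} (h : y N ≤ ‖z‖) : ∃ n, N ≤ n ∧ y n ≤ ‖z‖ ∧ ‖z‖ < y (n + 1) := by
  obtain ⟨M, hM⟩ := exists_lt_y ‖z‖
  have hex : ∃ m, ‖z‖ < y (N + m + 1) := by
    refine ⟨M, hM.trans_le (y_mono.monotone (by omega))⟩
  classical
  refine ⟨N + Nat.find hex, Nat.le_add_right _ _, ?_, Nat.find_spec hex⟩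
  rcases Nat.eq_zero_or_pos (Nat.find hex) with h0 | h0
  · rw [h0]; exact h
  · have := Nat.find_min hex (m := Nat.find hex - 1) (by omega)
    rw [not_lt] at this
    have he : N + (Nat.find hex - 1) + 1 = N + Nat.find hex := by omega
    rwa [he] at this



/-! ### Polar form estimates for the kernel -/

/-- polar point -/
noncomputable def pol (ρ θ : ℝ) : ℂ := (ρ : ℂ) * Complex.exp ((θ : ℂ) * Complex.I)

lemma pol_re (ρ θ : ℝ) : (pol ρ θ).re = ρ * Real.cos θ := by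
  unfold pol
  rw [Complex.re_ofReal_mul, Complex.exp_ofReal_mul_I_re]

lemma pol_im (ρ θ : ℝ) : (pol ρ θ).im = ρ * Real.sin θ := by
  unfold pol
  rw [Complex.im_ofReal_mul, Complex.exp_ofReal_mul_I_im]

lemma pol_pow (ρ θ : ℝ) (k : ℕ) : pol ρ θ ^ k = pol (ρ ^ k) (k * θ) := by
  unfold pol
  rw [mul_pow, ← Complex.exp_nat_mul]
  push_cast
  ring_nf

lemma pol_norm {ρ : ℝ} (hρ : 0 ≤ ρ) (θ : ℝ) : ‖pol ρ θ‖ = ρ := by
  unfold pol
  rw [norm_mul, Complex.norm_real, Real.norm_of_nonneg hρ, Complex.norm_exp_ofReal_mul_I, mul_one]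

lemma pol_div (ρ θ b : ℝ) : pol ρ θ / (b : ℂ) = pol (ρ / b) θ := by
  unfold pol
  push_cast
  ring

/-- real part of the kernel -/
lemma g_re (u : ℂ) : (g u).re * Complex.normSq (1 + u ^ 4)
    = (u ^ 2).re * (1 + Complex.normSq (u ^ 2)) := by
  unfold g
  by_cases h : 1 + u ^ 4 = 0
  · rw [h]
    simp only [div_zero, Complex.zero_re, map_zero, mul_zero]
    have h4 : (u ^ 2) * (u ^ 2) = -1 := by linear_combination h
    have hre := congrArg Complex.re h4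
    have him := congrArg Complex.im h4
    simp only [Complex.mul_re, Complex.mul_im, Complex.neg_re, Complex.one_re, Complex.neg_im, Complex.one_im] at hre him
    have h0 : (u ^ 2).re = 0 := by
      rcases mul_eq_zero.1 (show (u^2).re * (u^2).im = 0 by linarith) with h1 | h1
      · exact h1
      · rw [h1] at hre; nlinarith [sq_nonneg (u ^ 2).re]
    rw [h0, zero_mul]
  · have hn : Complex.normSq (1 + u ^ 4) ≠ 0 := by
      rwa [Ne, Complex.normSq_eq_zero]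
    rw [Complex.div_re, ← add_div, div_mul_cancel₀ _ hn]
    have e4 : u ^ 4 = (u ^ 2) * (u ^ 2) := by ring
    rw [e4]
    simp only [Complex.normSq_apply, Complex.add_re, Complex.add_im, Complex.mul_re, Complex.mul_im,
      Complex.one_re, Complex.one_im]
    ring

lemma sq_identity (v : ℂ) : Complex.normSq (1 + v ^ 2) = (1 - Complex.normSq v) ^ 2 + 4 * v.re ^ 2 := by
  simp only [Complex.normSq_apply, Complex.add_re, Complex.add_im, sq, Complex.mul_re, Complex.mul_im,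
      Complex.one_re, Complex.one_im]
  ring

lemma norm_g (u : ℂ) : ‖g u‖ * ‖1 + u ^ 4‖ = if 1 + u ^ 4 = 0 then 0 else ‖u‖ ^ 2 := by
  unfold g
  split_ifs with h
  · rw [h]; simp
  · have : ‖1 + u ^ 4‖ ≠ 0 := norm_ne_zero_iff.2 h
    rw [norm_div, norm_pow]
    field_simp

/-- Case A, value: if `re (s u²) ≥ 0` with `s = ±1` then `M g u` stays away from `-s`. -/
lemma caseA_val (s : ℝ) (hs : s = 1 ∨ s = -1) {u : ℂ} (hu : 0 ≤ s * (u ^ 2).re) {M : ℝ} (hM : 0 ≤ M) :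
    1 ≤ ‖(M : ℂ) * g u - (-(s : ℂ))‖ := by
  have h1 : 0 ≤ s * (g u).re := by
    by_cases h : 1 + u ^ 4 = 0
    · unfold g; rw [h]; simp
    · have hn : 0 < Complex.normSq (1 + u ^ 4) := Complex.normSq_pos.2 h
      have h2 := g_re u
      have h3 : 0 ≤ (s * (g u).re) * Complex.normSq (1 + u ^ 4) := by
        rw [mul_assoc, h2, ← mul_assoc]
        exact mul_nonneg hu (by have := Complex.normSq_nonneg (u ^ 2); linarith)
      exact nonneg_of_mul_nonneg_left h3 hn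
  have hre : ((M : ℂ) * g u - (-(s : ℂ))).re = M * (g u).re + s := by
    simp
  have h4 := Complex.abs_re_le_norm ((M : ℂ) * g u - (-(s : ℂ)))
  rw [hre] at h4
  refine le_trans ?_ h4
  rcases hs with rfl | rfl
  · rw [le_abs]; left
    have : 0 ≤ M * (g u).re := mul_nonneg hM (by linarith)
    linarith
  · rw [le_abs]; right
    have : 0 ≤ M * (-(g u).re) := mul_nonneg hM (by linarith)
    linarith

/-- Case A, second derivative bound. -/
lemma caseA_g2 {κ : ℝ} (hκ : 0 < κ) (hκ1 : κ ≤ 1) {u : ℂ} (hu : κ * ‖u‖ ^ 2 ≤ |(u ^ 2).re|) :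
    1 + u ^ 4 ≠ 0 ∧ ‖g2 u‖ ≤ 24 / κ ^ 3 := by
  have hs := sq_identity (u ^ 2)
  have e4 : (u ^ 2) ^ 2 = u ^ 4 := by ring
  rw [e4] at hs
  rw [Complex.normSq_eq_norm_sq, Complex.normSq_eq_norm_sq, norm_pow] at hs
  set x := ‖u‖ with hx
  have hx0 : 0 ≤ x := norm_nonneg u
  have h1 : (κ * x ^ 2) ^ 2 ≤ (u ^ 2).re ^ 2 := by
    rw [← sq_abs (u ^ 2).re]
    exact pow_le_pow_left₀ (by positivity) hu 2
  have h2 : (κ * (1 + x ^ 4)) ^ 2 ≤ ‖1 + u ^ 4‖ ^ 2 := by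
    rw [hs]
    have hk2 : κ ^ 2 ≤ 1 := by nlinarith
    nlinarith [sq_nonneg (1 - (x^2)^2), mul_nonneg (sub_nonneg.2 hk2) (sq_nonneg (1 - (x^2)^2))]
  have h3 : κ * (1 + x ^ 4) ≤ ‖1 + u ^ 4‖ := le_of_sq_le_sq h2 (norm_nonneg _)
  have h4 : 0 < κ * (1 + x ^ 4) := by positivity
  have hne : 1 + u ^ 4 ≠ 0 := by
    intro h0
    rw [h0, norm_zero] at h3
    linarith
  refine ⟨hne, ?_⟩
  unfold g2
  rw [norm_div, norm_pow, div_le_div_iff₀ (by positivity) (by positivity)]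
  have h5 : ‖(2 : ℂ) - 24 * u ^ 4 + 6 * u ^ 8‖ ≤ 2 + 24 * x ^ 4 + 6 * x ^ 8 := by
    refine (norm_add_le _ _).trans ?_
    refine add_le_add ((norm_sub_le _ _).trans ?_) ?_
    · rw [norm_mul, norm_pow]
      simp [← hx]
    · rw [norm_mul, norm_pow]
      simp [← hx]
  calc ‖(2 : ℂ) - 24 * u ^ 4 + 6 * u ^ 8‖ * κ ^ 3 ≤ (2 + 24 * x ^ 4 + 6 * x ^ 8) * κ ^ 3 := by gcongr
    _ ≤ (24 * (1 + x ^ 4) ^ 3) * κ ^ 3 := by
      gcongr
      have : 0 ≤ x ^ 4 := by positivity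
      nlinarith [mul_nonneg this this, mul_nonneg (mul_nonneg this this) this]
    _ = 24 * (κ * (1 + x ^ 4)) ^ 3 := by ring
    _ ≤ 24 * ‖1 + u ^ 4‖ ^ 3 := by gcongr

/-- Case B, value. -/
lemma caseB_val {u : ℂ} (hu : |(u ^ 2).re| ≤ ‖u‖ ^ 2 / 4) {M : ℝ} (hM : 4 ≤ M) :
    1 / 2 ≤ ‖(M : ℂ) * g u - 1‖ := by
  by_cases h : 1 + u ^ 4 = 0
  · unfold g; rw [h]; simp; norm_num
  have hn : 0 < ‖1 + u ^ 4‖ := norm_pos_iff.2 h
  have hg := norm_g u
  rw [if_neg h] at hg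
  have hre := g_re u
  have hs := sq_identity (u ^ 2)
  have e4 : (u ^ 2) ^ 2 = u ^ 4 := by ring
  rw [e4] at hs
  rw [Complex.normSq_eq_norm_sq, Complex.normSq_eq_norm_sq, norm_pow] at hs hre
  set x := ‖u‖ with hx
  set N := ‖1 + u ^ 4‖ with hN
  have hx0 : 0 ≤ x := norm_nonneg u
  by_cases hc : (1 + (x ^ 2) ^ 2) / 2 ≤ N
  · -- angle is good
    have h1 : |(g u).re| ≤ ‖g u‖ / 2 := by
      have h2 : |(g u).re| * N ^ 2 = |(u ^ 2).re| * (1 + (x ^ 2) ^ 2) := by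
        have := congrArg abs hre
        rw [abs_mul, abs_mul, abs_of_nonneg (by positivity : (0:ℝ) ≤ N ^ 2),
          abs_of_nonneg (by positivity : (0:ℝ) ≤ 1 + (x ^ 2) ^ 2)] at this
        exact this
      have h3 : |(g u).re| * N ^ 2 ≤ (‖g u‖ / 2) * N ^ 2 := by
        rw [h2]
        calc |(u ^ 2).re| * (1 + (x ^ 2) ^ 2) ≤ (x ^ 2 / 4) * (2 * N) := by
              gcongr
              linarith
          _ = (‖g u‖ * N) * N / 2 := by rw [hg]; ring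
          _ = (‖g u‖ / 2) * N ^ 2 := by ring
      exact le_of_mul_le_mul_right h3 (by positivity)
    have h5 : (1 / 2 : ℝ) ^ 2 ≤ ‖(M : ℂ) * g u - 1‖ ^ 2 := by
      rw [← Complex.normSq_eq_norm_sq, Complex.normSq_sub]
      simp only [map_mul, map_one, Complex.normSq_ofReal, mul_one, Complex.re_ofReal_mul]
      rw [Complex.normSq_eq_norm_sq]
      have h6 := (abs_le.1 h1).2
      have hg0 : 0 ≤ ‖g u‖ := norm_nonneg _
      nlinarith [sq_nonneg (M * ‖g u‖ - 1/2), mul_nonneg (by linarith : (0:ℝ) ≤ M) (by linarith : 0 ≤ ‖g u‖ / 2 - (g u).re)]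
    exact le_of_sq_le_sq h5 (norm_nonneg _)
  · rw [not_le] at hc
    have h1 : |1 - (x ^ 2) ^ 2| ≤ N := by
      apply le_of_sq_le_sq _ hn.le
      rw [sq_abs, hs]
      nlinarith [sq_nonneg (u ^ 2).re]
    obtain ⟨h2, h3⟩ := abs_le.1 (h1.trans hc.le)
    have h4 : (1:ℝ) / 2 ≤ ‖g u‖ := by
      have h6 : N / 2 ≤ x ^ 2 := by
        have h7 : 1 / 2 ≤ x ^ 2 := by
          nlinarith [sq_nonneg x]
        have h8 : x ^ 2 ≤ 2 := by nlinarith [sq_nonneg x]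
        nlinarith
      rw [← hg] at h6
      nlinarith
    have h5 : 2 ≤ ‖(M : ℂ) * g u‖ := by
      rw [norm_mul, Complex.norm_real, Real.norm_of_nonneg (by linarith)]
      nlinarith
    have h6 := norm_sub_norm_le ((M : ℂ) * g u) 1
    rw [norm_one] at h6
    linarith

/-- the function `m(t) = (1-t)/(1+t)^2` near the negative axis -/
lemma m_est {t : ℂ} {p q : ℝ} (ht : t = -(p : ℂ) + (q : ℂ) * Complex.I) (hp : 0 < p) (hq : |q| ≤ p / 6)
    (h : 1 + t ≠ 0) : 0 ≤ ((1 - t) / (1 + t) ^ 2).re ∨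
      (4 ≤ ‖(1 - t) / (1 + t) ^ 2‖ ∧ 1 / 16 ≤ p) := by
  have hq2 : q ^ 2 ≤ p ^ 2 / 36 := by
    have := pow_le_pow_left₀ (abs_nonneg q) hq 2
    rw [sq_abs] at this
    linarith
  by_cases hc : 3 * q ^ 2 ≤ (1 - p) ^ 2
  · left
    rw [Complex.div_re]
    have hn : 0 < Complex.normSq ((1 + t) ^ 2) := Complex.normSq_pos.2 (pow_ne_zero 2 h)
    rw [← add_div]
    apply div_nonneg _ hn.le
    subst ht
    simp only [sq, Complex.add_re, Complex.sub_re, Complex.mul_re, Complex.mul_im, Complex.add_im,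
      Complex.sub_im, Complex.neg_re, Complex.neg_im, Complex.ofReal_re, Complex.ofReal_im,
      Complex.I_re, Complex.I_im, Complex.one_re, Complex.one_im]
    ring_nf
    nlinarith [mul_nonneg hp.le (sub_nonneg.2 hc), sq_nonneg q, mul_nonneg hp.le (sq_nonneg q)]
  · right
    rw [not_le] at hc
    have hp1 : (1 - p) ^ 2 ≤ p ^ 2 / 12 := by linarith
    have hp2 : 1 / 2 ≤ p := by
      by_contra hlt
      rw [not_le] at hlt
      nlinarith
    have hp3 : p ≤ 2 := by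
      by_contra hlt
      rw [not_le] at hlt
      nlinarith
    refine ⟨?_, by linarith⟩
    have h1 : 1 + p ≤ ‖1 - t‖ := by
      have := Complex.re_le_norm (1 - t)
      have h2 : (1 - t).re = 1 + p := by
        rw [ht]; simp
      linarith
    have h3 : ‖1 + t‖ ^ 2 ≤ p ^ 2 / 9 := by
      rw [← Complex.normSq_eq_norm_sq, ht]
      simp only [Complex.normSq_apply, Complex.add_re, Complex.mul_re, Complex.mul_im, Complex.add_im,
        Complex.neg_re, Complex.neg_im, Complex.ofReal_re, Complex.ofReal_im,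
        Complex.I_re, Complex.I_im, Complex.one_re, Complex.one_im]
      nlinarith
    have h4 : 0 < ‖1 + t‖ ^ 2 := by
      have := norm_pos_iff.2 h
      positivity
    rw [norm_div, norm_pow, le_div_iff₀ h4]
    nlinarith

/-- Case B, first derivative. -/
lemma caseB_g1 {u e : ℂ} {ρ : ℝ} (hρ : 0 < ρ) (he : ‖e‖ = 1) {η : ℂ} (hη : ‖η‖ ≤ 1 / 4)
    (hu : u = (ρ : ℂ) * (e * (1 + η))) (hun : ‖u‖ = ρ) {p q : ℝ}
    (ht : u ^ 4 = -(p : ℂ) + (q : ℂ) * Complex.I) (hp : 0 < p) (hq : |q| ≤ p / 6)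
    (h : 1 + u ^ 4 ≠ 0) {M : ℝ} (hM : 2 ≤ M) :
    1 / 2 ≤ ‖(M : ℂ) * g1 u - (-e)‖ := by
  set m := (1 - u ^ 4) / (1 + u ^ 4) ^ 2 with hm
  have hg1 : g1 u = 2 * u * m := by
    unfold g1; rw [hm]; ring
  have hee : e * (starRingEnd ℂ) e = 1 := by
    rw [Complex.mul_conj, Complex.normSq_eq_norm_sq, he]; norm_num
  rw [sub_neg_eq_add]
  have hMn : ‖(M : ℂ) * g1 u‖ = 2 * M * ρ * ‖m‖ := by
    rw [hg1, norm_mul, norm_mul, norm_mul, Complex.norm_real, Real.norm_of_nonneg (by linarith), hun]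
    simp
    ring
  rcases m_est ht hp hq h with h1 | ⟨h1, h2⟩
  · -- real part of m nonnegative
    have hX : ‖(M : ℂ) * g1 u + e‖ ^ 2 = ‖(M : ℂ) * g1 u‖ ^ 2 + 1
        + 2 * (((M : ℂ) * g1 u) * (starRingEnd ℂ) e).re := by
      rw [← Complex.normSq_eq_norm_sq, Complex.normSq_add, Complex.normSq_eq_norm_sq,
        Complex.normSq_eq_norm_sq, he]
      norm_num
    have hY : ((M : ℂ) * g1 u) * (starRingEnd ℂ) e = ((2 * M * ρ : ℝ) : ℂ) * (m + m * η) := by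
      rw [hg1, hu]
      push_cast
      linear_combination (2 * M * ρ * m * (1 + η)) * hee
    have hZ : (((M : ℂ) * g1 u) * (starRingEnd ℂ) e).re ≥ -(2 * M * ρ * ‖m‖) / 4 := by
      rw [hY, Complex.re_ofReal_mul, Complex.add_re]
      have h3 : |(m * η).re| ≤ ‖m‖ * (1 / 4) := by
        refine (Complex.abs_re_le_norm _).trans ?_
        rw [norm_mul]
        gcongr
      have h4 := (abs_le.1 h3).1
      have h5 : 0 ≤ 2 * M * ρ := by positivity
      nlinarith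
    have hsq : (1 / 2 : ℝ) ^ 2 ≤ ‖(M : ℂ) * g1 u + e‖ ^ 2 := by
      rw [hX, hMn]
      rw [ge_iff_le] at hZ
      nlinarith [sq_nonneg (2 * M * ρ * ‖m‖ - 1 / 4)]
    exact le_of_sq_le_sq hsq (norm_nonneg _)
  · have hρ2 : 1 / 2 ≤ ρ := by
      by_contra hlt
      rw [not_le] at hlt
      have h3 : p ≤ ρ ^ 4 := by
        have h4 : ‖u ^ 4‖ = ρ ^ 4 := by rw [norm_pow, hun]
        have h5 : |(u ^ 4).re| ≤ ‖u ^ 4‖ := Complex.abs_re_le_norm _
        rw [h4, ht] at h5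
        simp at h5
        rwa [abs_of_pos hp] at h5
      have h6 : ρ ^ 4 < (1 / 2) ^ 4 := pow_lt_pow_left₀ hlt hρ.le (by norm_num)
      norm_num at h6
      linarith
    have h3 : 8 ≤ ‖(M : ℂ) * g1 u‖ := by
      rw [hMn]
      have : (2:ℝ) ≤ 2 * M * ρ := by nlinarith
      nlinarith
    have h4 := norm_sub_norm_le ((M : ℂ) * g1 u) (-e)
    rw [norm_neg, he, sub_neg_eq_add] at h4
    linarith



lemma sector_isOpen (θ₀ ε : ℝ) : IsOpen (sector θ₀ ε) := by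
  have h1 : sector θ₀ ε = Complex.exp '' {w : ℂ | |w.im - θ₀| < ε} := by
    ext z
    constructor
    · rintro ⟨r, θ, hr, hθ, rfl⟩
      refine ⟨(Real.log r : ℂ) + (θ : ℂ) * Complex.I, ?_, ?_⟩
      · simpa using hθ
      · rw [Complex.exp_add, ← Complex.ofReal_exp, Real.exp_log hr]
    · rintro ⟨w, hw, rfl⟩
      refine ⟨Real.exp w.re, w.im, Real.exp_pos _, hw, ?_⟩
      rw [Complex.ofReal_exp, ← Complex.exp_add, Complex.re_add_im]
  rw [h1]
  apply Complex.isOpenMap_exp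
  exact isOpen_lt (by fun_prop) continuous_const

/-- the function in normal form -/
noncomputable def fN : ℂ → ℂ := toMeromorphicNFOn F univ

lemma fN_NF : MeromorphicNFOn fN univ := meromorphicNFOn_toMeromorphicNFOn F univ

lemma fN_eventually (z : ℂ) : fN =ᶠ[𝓝[≠] z] F :=
  MeromorphicOn.toMeromorphicNFOn_eq_self_on_nhdsNE (fun z _ => F_meromorphicAt z) (mem_univ z)

lemma fN_iter (k : ℕ) (z : ℂ) : iteratedDeriv k fN =ᶠ[𝓝[≠] z] iteratedDeriv k F := by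
  have h1 := eventually_eventually_nhdsWithin.2 (fN_eventually z)
  filter_upwards [h1, self_mem_nhdsWithin] with ζ hζ hne
  have h2 : ∀ᶠ x in 𝓝 ζ, fN x = F x := by
    have : 𝓝[{z}ᶜ] ζ = 𝓝 ζ := isOpen_compl_singleton.nhdsWithin_eq hne
    rwa [this] at hζ
  exact Filter.EventuallyEq.iteratedDeriv_eq k h2

lemma fN_meromorphicAt (z : ℂ) : MeromorphicAt fN z := (fN_NF (mem_univ z)).meromorphicAt

lemma key_finite {S : Set ℂ} (hS : IsOpen S) (k : ℕ) (w : ℂ) (N : ℕ)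
    (hunb : ∀ R : ℝ, ∃ z ∈ S, R ≤ ‖z‖)
    (H : ∀ n, N ≤ n → ∀ ζ ∈ S, 3 / 4 * y n ≤ ‖ζ‖ → ‖ζ‖ ≤ 3 / 2 * y (n + 1) →
      1 + (ζ / ((y n : ℝ) : ℂ) ^ 5) ^ 4 ≠ 0 → 1 / 4 ≤ ‖iteratedDeriv k F ζ - w‖) :
    (S ∩ solutions fN k w).Finite := by
  -- step 1
  have step1 : ∀ z ∈ S, y N ≤ ‖z‖ → ∀ᶠ ζ in 𝓝[≠] z, 1 / 4 ≤ ‖iteratedDeriv k fN ζ - w‖ := by
    intro z hz hNz
    obtain ⟨n, hn, h1, h2⟩ := exists_zone hNz
    have hy := y_pos n
    have hy' := y_pos (n + 1)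
    have hz0 : z ≠ 0 := by
      rw [← norm_pos_iff]; linarith
    have hyc : ((y n : ℝ) : ℂ) ≠ 0 := by exact_mod_cast hy.ne'
    have hden : ∀ᶠ ζ in 𝓝[≠] z, 1 + (ζ / ((y n : ℝ) : ℂ) ^ 5) ^ 4 ≠ 0 := by
      have hd : HasDerivAt (fun ζ : ℂ => 1 + (ζ / ((y n : ℝ) : ℂ) ^ 5) ^ 4)
          (4 * (z / ((y n : ℝ) : ℂ) ^ 5) ^ 3 * (1 / ((y n : ℝ) : ℂ) ^ 5)) z := by
        have h1 : HasDerivAt (fun z : ℂ => z / ((y n : ℝ) : ℂ) ^ 5) (1 / ((y n : ℝ) : ℂ) ^ 5) z :=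
          (hasDerivAt_id z).div_const _
        simpa using (h1.fun_pow 4).const_add 1
      exact hd.eventually_ne (by
        have : z / ((y n : ℝ) : ℂ) ^ 5 ≠ 0 := div_ne_zero hz0 (pow_ne_zero 5 hyc)
        exact mul_ne_zero (mul_ne_zero (by norm_num) (pow_ne_zero 3 this))
          (div_ne_zero one_ne_zero (pow_ne_zero 5 hyc)))
    have hS' : ∀ᶠ ζ in 𝓝[≠] z, ζ ∈ S := nhdsWithin_le_nhds (hS.mem_nhds hz)
    have hc1 : ∀ᶠ ζ in 𝓝[≠] z, 3 / 4 * y n < ‖ζ‖ := by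
      apply nhdsWithin_le_nhds
      exact continuous_norm.continuousAt.eventually_const_lt (by linarith)
    have hc2 : ∀ᶠ ζ in 𝓝[≠] z, ‖ζ‖ < 3 / 2 * y (n + 1) := by
      apply nhdsWithin_le_nhds
      exact continuous_norm.continuousAt.eventually_lt_const (by linarith)
    filter_upwards [hden, hS', hc1, hc2, fN_iter k z] with ζ a1 a2 a3 a4 a5
    rw [a5]
    exact H n hn ζ a2 a3.le a4.le a1
  -- step 2
  have hmero : Meromorphic (fun ζ => iteratedDeriv k fN ζ - w) := by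
    intro z
    have h1 : MeromorphicAt (iteratedDeriv k fN) z := by
      rw [iteratedDeriv_eq_iterate]
      exact (fN_meromorphicAt z).iterated_deriv
    exact h1.sub (MeromorphicAt.const w z)
  have hord : ∀ z, ∀ᶠ ζ in 𝓝[≠] z, iteratedDeriv k fN ζ - w ≠ 0 := by
    obtain ⟨z₁, hz₁, hz₁N⟩ := hunb (y N)
    have h1 : ∃ u, meromorphicOrderAt (fun ζ => iteratedDeriv k fN ζ - w) u ≠ ⊤ := by
      refine ⟨z₁, ?_⟩
      rw [meromorphicOrderAt_ne_top_iff_eventually_ne_zero (hmero z₁)]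
      filter_upwards [step1 z₁ hz₁ hz₁N] with ζ hζ h0
      rw [h0, norm_zero] at hζ
      norm_num at hζ
    intro z
    rw [← meromorphicOrderAt_ne_top_iff_eventually_ne_zero (hmero z)]
    exact hmero.exists_meromorphicOrderAt_ne_top_iff_forall.1 h1 z
  -- step 3
  have hsub : S ∩ solutions fN k w ⊆ Metric.closedBall 0 (y N) := by
    rintro z ⟨hzS, hza, hzw⟩
    rw [mem_closedBall_zero_iff]
    by_contra hlt
    rw [not_le] at hlt
    have h1 := step1 z hzS hlt.le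
    have h2 : ContinuousAt (iteratedDeriv k fN) z := by
      have := (hza.iterated_deriv k).continuousAt
      rwa [← iteratedDeriv_eq_iterate] at this
    have h3 : Tendsto (fun ζ => ‖iteratedDeriv k fN ζ - w‖) (𝓝[≠] z) (𝓝 0) := by
      have h4 : Tendsto (fun ζ => ‖iteratedDeriv k fN ζ - w‖) (𝓝 z) (𝓝 ‖iteratedDeriv k fN z - w‖) :=
        (h2.sub continuousAt_const).norm
      rw [hzw, sub_self, norm_zero] at h4
      exact h4.mono_left nhdsWithin_le_nhds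
    have h5 := h3.eventually_lt_const (show (0:ℝ) < 1 / 4 by norm_num)
    obtain ⟨ζ, hζ1, hζ2⟩ := (h1.and h5).exists
    linarith
  by_contra hinf
  obtain ⟨z, -, hacc⟩ := Set.Infinite.exists_accPt_of_subset_isCompact hinf
    (isCompact_closedBall 0 (y N)) hsub
  rw [accPt_iff_frequently_nhdsNE] at hacc
  obtain ⟨ζ, h1, h2⟩ := (hacc.and_eventually (hord z)).exists
  exact h2 (sub_eq_zero.2 h1.2.2)


lemma sector_unbounded (θ₀ : ℝ) {ε : ℝ} (hε : 0 < ε) (R : ℝ) : ∃ z ∈ sector θ₀ ε, R ≤ ‖z‖ := by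
  have h1 : 0 < max R 1 := lt_max_of_lt_right one_pos
  refine ⟨pol (max R 1) θ₀, ⟨max R 1, θ₀, h1, by simpa using hε, rfl⟩, ?_⟩
  rw [pol_norm h1.le]
  exact le_max_left _ _

lemma y_cpow (n j : ℕ) : (((y n : ℝ) : ℂ)) ^ j = ((y n ^ j : ℝ) : ℂ) := by push_cast; rfl

lemma δ_small {c : ℝ} (hc : 0 < c) : ∃ N, 1 ≤ N ∧ ∀ n, N ≤ n → δ n ≤ c := by
  obtain ⟨N, hN⟩ := eventually_atTop.1 (δ_tendsto.eventually_lt_const hc)
  exact ⟨max N 1, le_max_right _ _, fun n hn => (hN n ((le_max_left _ _).trans hn)).le⟩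

/-- sectors away from the pole directions -/
lemma dir_caseA (θ₀ : ℝ) (hc : Real.cos (2 * θ₀) ≠ 0) :
    ∃ ε : ℝ, 0 < ε ∧ (∃ a : ℂ, (sector θ₀ ε ∩ solutions fN 0 a).Finite) ∧
      (sector θ₀ ε ∩ solutions fN 2 1).Finite := by
  obtain ⟨s, hs, hsc⟩ : ∃ s : ℝ, (s = 1 ∨ s = -1) ∧ 0 < s * Real.cos (2 * θ₀) := by
    rcases lt_or_gt_of_ne hc with h | h
    · exact ⟨-1, Or.inr rfl, by linarith⟩
    · exact ⟨1, Or.inl rfl, by linarith⟩
  set κ := s * Real.cos (2 * θ₀) / 2 with hκ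
  have hκ0 : 0 < κ := by positivity
  have hκ1 : κ ≤ 1 := by
    have h1 := Real.cos_le_one (2 * θ₀)
    have h2 := Real.neg_one_le_cos (2 * θ₀)
    rcases hs with rfl | rfl <;> rw [hκ] <;> linarith
  obtain ⟨ε, hε, hεκ⟩ : ∃ ε : ℝ, 0 < ε ∧ ∀ θ, |θ - θ₀| < ε → κ < s * Real.cos (2 * θ) := by
    have hcont : ContinuousAt (fun θ : ℝ => s * Real.cos (2 * θ)) θ₀ := by fun_prop
    have := hcont.eventually_const_lt (show κ < s * Real.cos (2 * θ₀) by linarith)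
    obtain ⟨ε, hε, h⟩ := Metric.eventually_nhds_iff.1 this
    exact ⟨ε, hε, fun θ hθ => h (by rwa [Real.dist_eq])⟩
  -- geometry of points in the sector
  have hgeo : ∀ ζ ∈ sector θ₀ ε, ∀ n, κ * ‖ζ / ((y n : ℝ) : ℂ) ^ 5‖ ^ 2 ≤
      s * ((ζ / ((y n : ℝ) : ℂ) ^ 5) ^ 2).re := by
    rintro ζ ⟨r, θ, hr, hθ, rfl⟩ n
    have hy := y_pos n
    have h1 : (r : ℂ) * Complex.exp ((θ : ℂ) * Complex.I) / ((y n : ℝ) : ℂ) ^ 5 = pol (r / y n ^ 5) θ := by
      rw [y_cpow]; exact pol_div r θ _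
    rw [h1, pol_norm (by positivity), pol_pow, pol_re]
    have h2 := (hεκ θ hθ).le
    have h3 : (0:ℝ) ≤ (r / y n ^ 5) ^ 2 := by positivity
    push_cast
    nlinarith
  refine ⟨ε, hε, ⟨-(s : ℂ), ?_⟩, ?_⟩
  · obtain ⟨N, hN1, hN⟩ := δ_small (show (0:ℝ) < 1 / 2 by norm_num)
    refine key_finite (sector_isOpen _ _) 0 _ N (sector_unbounded θ₀ hε) ?_
    intro n hn ζ hζ h1 h2 hden
    rw [iteratedDeriv_zero, F_eq n ζ]
    have hE : ‖E n ζ‖ ≤ 1 / 2 := by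
      have := E_deriv_bound 0 (hN1.trans hn) h1 h2
      rw [iteratedDeriv_zero] at this
      simp at this
      exact this.trans (hN n hn)
    have hT : 1 ≤ ‖T n ζ - (-(s : ℂ))‖ := by
      have := caseA_val s hs (u := ζ / ((y n : ℝ) : ℂ) ^ 5) (M := y n ^ 6)
        (le_trans (by positivity) (hgeo ζ hζ n)) (by have := y_pos n; positivity)
      unfold T
      push_cast at this
      exact this
    have h3 := norm_sub_norm_le (T n ζ - (-(s : ℂ))) (-(E n ζ))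
    rw [norm_neg] at h3
    have h4 : T n ζ + E n ζ - (-(s : ℂ)) = T n ζ - (-(s : ℂ)) - (-(E n ζ)) := by ring
    rw [h4]
    linarith
  · have hpos : (0:ℝ) < κ ^ 3 / 96 := by positivity
    obtain ⟨N, hN1, hN⟩ := δ_small (show (0:ℝ) < 1 / 8 by norm_num)
    obtain ⟨N2, hN2⟩ : ∃ N2 : ℕ, ∀ n, N2 ≤ n → 24 / κ ^ 3 / y n ^ 4 ≤ 1 / 2 := by
      obtain ⟨N2, hN2⟩ := exists_lt_y (48 / κ ^ 3)
      refine ⟨N2, fun n hn => ?_⟩
      have hy := two_le_y n
      have h1 : 48 / κ ^ 3 ≤ y n := hN2.le.trans (y_mono.monotone hn)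
      have h2 : y n ≤ y n ^ 4 := by
        calc y n = y n ^ 1 := (pow_one _).symm
          _ ≤ y n ^ 4 := pow_le_pow_right₀ (by linarith) (by norm_num)
      rw [div_le_iff₀ (by positivity)]
      have h3 : 24 / κ ^ 3 = 1 / 2 * (48 / κ ^ 3) := by ring
      rw [h3]
      linarith
    refine key_finite (sector_isOpen _ _) 2 _ (max N N2)
      (sector_unbounded θ₀ hε) ?_
    intro n hn ζ hζ h1 h2 hden
    have hnN : N ≤ n := (le_max_left _ _).trans hn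
    rw [F_iteratedDeriv 2 (hN1.trans hnN) h1 h2 hden, T_deriv2 hden]
    have hE : ‖iteratedDeriv 2 (E n) ζ‖ ≤ 1 / 4 := by
      have := E_deriv_bound 2 (hN1.trans hnN) h1 h2
      have h3 := hN n hnN
      simp at this
      linarith
    have hT : ‖g2 (ζ / ((y n : ℝ) : ℂ) ^ 5) / ((y n : ℝ) : ℂ) ^ 4‖ ≤ 1 / 2 := by
      have h3 : κ * ‖ζ / ((y n : ℝ) : ℂ) ^ 5‖ ^ 2 ≤ |((ζ / ((y n : ℝ) : ℂ) ^ 5) ^ 2).re| := by
        refine (hgeo ζ hζ n).trans ?_
        rcases hs with rfl | rfl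
        · rw [one_mul]; exact le_abs_self _
        · rw [neg_one_mul]; exact neg_le_abs _
      have h4 := (caseA_g2 hκ0 hκ1 h3).2
      rw [norm_div, norm_pow, Complex.norm_real, Real.norm_of_nonneg (y_pos n).le]
      have := y_pos n
      exact (div_le_div_of_nonneg_right h4 (by positivity)).trans (hN2 n ((le_max_right _ _).trans hn))
    have h3 := norm_sub_norm_le (1 : ℂ) (g2 (ζ / ((y n : ℝ) : ℂ) ^ 5) / ((y n : ℝ) : ℂ) ^ 4 + iteratedDeriv 2 (E n) ζ)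
    have h4 := norm_add_le (g2 (ζ / ((y n : ℝ) : ℂ) ^ 5) / ((y n : ℝ) : ℂ) ^ 4) (iteratedDeriv 2 (E n) ζ)
    rw [norm_one, norm_sub_rev] at h3
    linarith

/-- sectors about the pole directions -/
lemma dir_caseB (θ₀ : ℝ) (hc : Real.cos (2 * θ₀) = 0) :
    ∃ ε : ℝ, 0 < ε ∧ (sector θ₀ ε ∩ solutions fN 0 1).Finite ∧
      (∃ w : ℂ, w ≠ 0 ∧ (sector θ₀ ε ∩ solutions fN 1 w).Finite) := by
  have hc4 : Real.cos (4 * θ₀) = -1 := by
    have : (4 * θ₀) = 2 * (2 * θ₀) := by ring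
    rw [this, Real.cos_two_mul, hc]; norm_num
  have hs4 : Real.sin (4 * θ₀) = 0 := by
    have : (4 * θ₀) = 2 * (2 * θ₀) := by ring
    rw [this, Real.sin_two_mul, hc]; ring
  obtain ⟨ε, hε, hall⟩ : ∃ ε : ℝ, 0 < ε ∧ ∀ θ, |θ - θ₀| < ε →
      (|Real.cos (2 * θ)| < 1 / 4 ∧ Real.cos (4 * θ) < -(1 / 2) ∧ |Real.sin (4 * θ)| < 1 / 12 ∧
        ‖Complex.exp (((θ - θ₀ : ℝ) : ℂ) * Complex.I) - 1‖ < 1 / 4) := by
    have e1 : ∀ᶠ θ in 𝓝 θ₀, |Real.cos (2 * θ)| < 1 / 4 := by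
      have hcont : ContinuousAt (fun θ : ℝ => |Real.cos (2 * θ)|) θ₀ := by fun_prop
      exact hcont.eventually_lt_const (by simp only [hc]; norm_num)
    have e2 : ∀ᶠ θ in 𝓝 θ₀, Real.cos (4 * θ) < -(1 / 2) := by
      have hcont : ContinuousAt (fun θ : ℝ => Real.cos (4 * θ)) θ₀ := by fun_prop
      exact hcont.eventually_lt_const (by simp only [hc4]; norm_num)
    have e3 : ∀ᶠ θ in 𝓝 θ₀, |Real.sin (4 * θ)| < 1 / 12 := by
      have hcont : ContinuousAt (fun θ : ℝ => |Real.sin (4 * θ)|) θ₀ := by fun_prop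
      exact hcont.eventually_lt_const (by simp only [hs4]; norm_num)
    have e4 : ∀ᶠ θ in 𝓝 θ₀, ‖Complex.exp (((θ - θ₀ : ℝ) : ℂ) * Complex.I) - 1‖ < 1 / 4 := by
      have hcont : ContinuousAt (fun θ : ℝ => ‖Complex.exp (((θ - θ₀ : ℝ) : ℂ) * Complex.I) - 1‖) θ₀ := by
        fun_prop
      exact hcont.eventually_lt_const (by simp)
    obtain ⟨ε, hε, h⟩ := Metric.eventually_nhds_iff.1 (e1.and (e2.and (e3.and e4)))
    exact ⟨ε, hε, fun θ hθ => h (by rwa [Real.dist_eq])⟩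
  refine ⟨ε, hε, ?_, ⟨-Complex.exp ((θ₀ : ℂ) * Complex.I), neg_ne_zero.2 (Complex.exp_ne_zero _), ?_⟩⟩
  · obtain ⟨N, hN1, hN⟩ := δ_small (show (0:ℝ) < 1 / 4 by norm_num)
    refine key_finite (sector_isOpen _ _) 0 _ N (sector_unbounded θ₀ hε) ?_
    intro n hn ζ hζ h1 h2 hden
    rw [iteratedDeriv_zero, F_eq n ζ]
    have hE : ‖E n ζ‖ ≤ 1 / 4 := by
      have := E_deriv_bound 0 (hN1.trans hn) h1 h2
      rw [iteratedDeriv_zero] at this
      simp at this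
      exact this.trans (hN n hn)
    have hT : 1 / 2 ≤ ‖T n ζ - 1‖ := by
      have hM : (4:ℝ) ≤ y n ^ 6 := by
        calc (4:ℝ) ≤ 2 ^ 6 := by norm_num
          _ ≤ y n ^ 6 := pow_le_pow_left₀ (by norm_num) (two_le_y n) 6
      have := caseB_val (u := ζ / ((y n : ℝ) : ℂ) ^ 5) (M := y n ^ 6) ?_ hM
      · unfold T
        push_cast at this
        exact this
      · obtain ⟨r, θ, hr, hθ, rfl⟩ := hζ
        have hy := y_pos n
        have h1 : (r : ℂ) * Complex.exp ((θ : ℂ) * Complex.I) / ((y n : ℝ) : ℂ) ^ 5 = pol (r / y n ^ 5) θ := by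
          rw [y_cpow]; exact pol_div r θ _
        rw [h1, pol_norm (by positivity), pol_pow, pol_re, abs_mul, abs_of_nonneg (by positivity)]
        have h2 := (hall θ hθ).1.le
        have h3 : (0:ℝ) ≤ (r / y n ^ 5) ^ 2 := by positivity
        push_cast
        nlinarith
    have h3 := norm_sub_norm_le (T n ζ - 1) (-(E n ζ))
    rw [norm_neg] at h3
    have h4 : T n ζ + E n ζ - 1 = T n ζ - 1 - (-(E n ζ)) := by ring
    rw [h4]
    linarith
  · obtain ⟨N, hN1, hN⟩ := δ_small (show (0:ℝ) < 1 / 4 by norm_num)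
    refine key_finite (sector_isOpen _ _) 1 _ N (sector_unbounded θ₀ hε) ?_
    intro n hn ζ hζ h1 h2 hden
    rw [F_iteratedDeriv 1 (hN1.trans hn) h1 h2 hden, iteratedDeriv_one, (T_hasDerivAt hden).deriv]
    have hE : ‖iteratedDeriv 1 (E n) ζ‖ ≤ 1 / 4 := by
      have := E_deriv_bound 1 (hN1.trans hn) h1 h2
      have h3 := hN n hn
      simp at this
      rw [iteratedDeriv_one]
      linarith
    have hT : 1 / 2 ≤ ‖((y n : ℝ) : ℂ) * g1 (ζ / ((y n : ℝ) : ℂ) ^ 5) - (-Complex.exp ((θ₀ : ℂ) * Complex.I))‖ := by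
      obtain ⟨r, θ, hr, hθ, rfl⟩ := hζ
      have hy := y_pos n
      have h1 : (r : ℂ) * Complex.exp ((θ : ℂ) * Complex.I) / ((y n : ℝ) : ℂ) ^ 5 = pol (r / y n ^ 5) θ := by
        rw [y_cpow]; exact pol_div r θ _
      rw [h1] at hden ⊢
      set ρ := r / y n ^ 5 with hρ
      have hρ0 : 0 < ρ := by positivity
      obtain ⟨-, b2, b3, b4⟩ := hall θ hθ
      refine caseB_g1 (ρ := ρ) (η := Complex.exp (((θ - θ₀ : ℝ) : ℂ) * Complex.I) - 1)
        (p := -(ρ ^ 4 * Real.cos (4 * θ))) (q := ρ ^ 4 * Real.sin (4 * θ)) hρ0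
        (Complex.norm_exp_ofReal_mul_I _) b4.le ?_ (pol_norm hρ0.le θ) ?_ ?_ ?_ hden (two_le_y n)
      · unfold pol
        rw [add_sub_cancel, ← Complex.exp_add]
        congr 2
        push_cast
        ring
      · have hre : ∀ a b : ℝ, (-(a : ℂ) + (b : ℂ) * Complex.I).re = -a := by intro a b; simp
        have him : ∀ a b : ℝ, (-(a : ℂ) + (b : ℂ) * Complex.I).im = b := by intro a b; simp
        rw [pol_pow]
        apply Complex.ext
        · rw [pol_re, hre]; push_cast; ring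
        · rw [pol_im, him]; push_cast; ring
      · have : 0 < ρ ^ 4 := by positivity
        nlinarith
      · have h3 : 0 < ρ ^ 4 := by positivity
        rw [abs_mul, abs_of_pos h3]
        nlinarith
    have h3 := norm_sub_norm_le (((y n : ℝ) : ℂ) * g1 (ζ / ((y n : ℝ) : ℂ) ^ 5) - (-Complex.exp ((θ₀ : ℂ) * Complex.I)))
      (-(iteratedDeriv 1 (E n) ζ))
    rw [norm_neg] at h3
    have h4 : ((y n : ℝ) : ℂ) * g1 (ζ / ((y n : ℝ) : ℂ) ^ 5) + iteratedDeriv 1 (E n) ζ - (-Complex.exp ((θ₀ : ℂ) * Complex.I))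
        = ((y n : ℝ) : ℂ) * g1 (ζ / ((y n : ℝ) : ℂ) ^ 5) - (-Complex.exp ((θ₀ : ℂ) * Complex.I)) - (-(iteratedDeriv 1 (E n) ζ)) := by ring
    rw [h4]
    linarith

lemma no_direction (θ₀ : ℝ) : ¬ IsYangLoDirection fN θ₀ := by
  intro h
  by_cases hc : Real.cos (2 * θ₀) = 0
  · obtain ⟨ε, hε, h1, w, hw, h2⟩ := dir_caseB θ₀ hc
    rcases h ε hε with h3 | h3
    · exact h3 1 h1
    · exact h3 1 le_rfl w hw h2
  · obtain ⟨ε, hε, ⟨a, h1⟩, h2⟩ := dir_caseA θ₀ hc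
    rcases h ε hε with h3 | h3
    · exact h3 a h1
    · exact h3 2 (by norm_num) 1 one_ne_zero h2

/-- the pole of `T n` on the ray of argument `π/4` -/
noncomputable def pole (n : ℕ) : ℂ := pol (y n ^ 5) (Real.pi / 4)

lemma pole_norm (n : ℕ) : ‖pole n‖ = y n ^ 5 := pol_norm (by have := y_pos n; positivity) _

lemma pole_pow (n : ℕ) : (pole n / ((y n : ℝ) : ℂ) ^ 5) ^ 4 = -1 := by
  have hy := y_pos n
  unfold pole
  rw [y_cpow, pol_div, div_self (by positivity), pol_pow]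
  apply Complex.ext
  · rw [pol_re]
    have : ((4:ℕ):ℝ) * (Real.pi / 4) = Real.pi := by push_cast; ring
    rw [this]; simp
  · rw [pol_im]
    have : ((4:ℕ):ℝ) * (Real.pi / 4) = Real.pi := by push_cast; ring
    rw [this]; simp

lemma not_rational : ¬ IsRational fN := by
  rintro ⟨P, Q, hQ, hPQ⟩
  have hroot : ∀ n, Q.eval (pole n) = 0 := by
    intro n
    by_contra hne
    set z := pole n with hz
    have hy := y_pos n
    have hy2 := two_le_y n
    have hyc : ((y n : ℝ) : ℂ) ≠ 0 := by exact_mod_cast hy.ne'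
    have hz0 : z ≠ 0 := by
      rw [← norm_pos_iff, hz, pole_norm]; positivity
    have hzn : ‖z‖ = y n ^ 5 := pole_norm n
    have hzE : DifferentiableAt ℂ (E n) z := by
      apply E_differentiableAt
      · rw [hzn]
        have : y n ≤ y n ^ 5 := by
          calc y n = y n ^ 1 := (pow_one _).symm
            _ ≤ y n ^ 5 := pow_le_pow_right₀ (by linarith) (by norm_num)
        linarith
      · rw [hzn, y_succ]
        have : y n ^ 5 ≤ y n ^ 16 := pow_le_pow_right₀ (by linarith) (by norm_num)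
        have h2 : 0 < y n ^ 16 := by positivity
        linarith
    -- T n tends to a finite limit at z
    have hfN : Tendsto fN (𝓝[≠] z) (𝓝 (P.eval z / Q.eval z)) := by
      have h1 : Tendsto (fun ζ => P.eval ζ / Q.eval ζ) (𝓝 z) (𝓝 (P.eval z / Q.eval z)) :=
        (P.continuous.tendsto z).div (Q.continuous.tendsto z) hne
      have h2 : ∀ᶠ ζ in 𝓝[≠] z, P.eval ζ / Q.eval ζ = fN ζ := by
        apply nhdsWithin_le_nhds
        filter_upwards [Q.continuous.continuousAt.eventually_ne hne] with ζ hζ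
        exact (hPQ ζ hζ).symm
      exact (h1.mono_left nhdsWithin_le_nhds).congr' h2
    have hF : Tendsto F (𝓝[≠] z) (𝓝 (P.eval z / Q.eval z)) := hfN.congr' (fN_eventually z)
    have hT : Tendsto (T n) (𝓝[≠] z) (𝓝 (P.eval z / Q.eval z - E n z)) := by
      have h1 : Tendsto (E n) (𝓝[≠] z) (𝓝 (E n z)) := hzE.continuousAt.tendsto.mono_left nhdsWithin_le_nhds
      refine (hF.sub h1).congr (fun ζ => ?_)
      rw [F_eq n ζ]; ring
    have hd : HasDerivAt (fun ζ : ℂ => 1 + (ζ / ((y n : ℝ) : ℂ) ^ 5) ^ 4)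
        (4 * (z / ((y n : ℝ) : ℂ) ^ 5) ^ 3 * (1 / ((y n : ℝ) : ℂ) ^ 5)) z := by
      have h1 : HasDerivAt (fun z : ℂ => z / ((y n : ℝ) : ℂ) ^ 5) (1 / ((y n : ℝ) : ℂ) ^ 5) z :=
        (hasDerivAt_id z).div_const _
      simpa using (h1.fun_pow 4).const_add 1
    have hden : ∀ᶠ ζ in 𝓝[≠] z, 1 + (ζ / ((y n : ℝ) : ℂ) ^ 5) ^ 4 ≠ 0 := by
      exact hd.eventually_ne (by
        have : z / ((y n : ℝ) : ℂ) ^ 5 ≠ 0 := div_ne_zero hz0 (pow_ne_zero 5 hyc)
        exact mul_ne_zero (mul_ne_zero (by norm_num) (pow_ne_zero 3 this))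
          (div_ne_zero one_ne_zero (pow_ne_zero 5 hyc)))
    have hden0 : Tendsto (fun ζ : ℂ => 1 + (ζ / ((y n : ℝ) : ℂ) ^ 5) ^ 4) (𝓝[≠] z) (𝓝 0) := by
      have h1 := hd.continuousAt.tendsto
      rw [hz, pole_pow n, ← hz] at h1
      simp only [add_neg_cancel] at h1
      exact h1.mono_left nhdsWithin_le_nhds
    have hprod := hT.mul hden0
    rw [mul_zero] at hprod
    have hnum : Tendsto (fun ζ : ℂ => ((y n : ℝ) : ℂ) ^ 6 * (ζ / ((y n : ℝ) : ℂ) ^ 5) ^ 2) (𝓝[≠] z)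
        (𝓝 (((y n : ℝ) : ℂ) ^ 6 * (z / ((y n : ℝ) : ℂ) ^ 5) ^ 2)) := by
      have : Continuous (fun ζ : ℂ => ((y n : ℝ) : ℂ) ^ 6 * (ζ / ((y n : ℝ) : ℂ) ^ 5) ^ 2) := by fun_prop
      exact (this.tendsto z).mono_left nhdsWithin_le_nhds
    have heq : (fun ζ : ℂ => T n ζ * (1 + (ζ / ((y n : ℝ) : ℂ) ^ 5) ^ 4)) =ᶠ[𝓝[≠] z]
        (fun ζ : ℂ => ((y n : ℝ) : ℂ) ^ 6 * (ζ / ((y n : ℝ) : ℂ) ^ 5) ^ 2) := by
      filter_upwards [hden] with ζ hζ
      unfold T g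
      rw [mul_assoc, div_mul_cancel₀ _ hζ]
    have huniq := tendsto_nhds_unique (hprod.congr' heq) hnum
    have : ((y n : ℝ) : ℂ) ^ 6 * (z / ((y n : ℝ) : ℂ) ^ 5) ^ 2 ≠ 0 :=
      mul_ne_zero (pow_ne_zero 6 hyc) (pow_ne_zero 2 (div_ne_zero hz0 (pow_ne_zero 5 hyc)))
    exact this huniq.symm
  have hinj : Function.Injective pole := by
    intro a b hab
    have h1 := congrArg norm hab
    rw [pole_norm, pole_norm] at h1
    have h2 : y a = y b := by
      exact (pow_left_inj₀ (y_pos a).le (y_pos b).le (by norm_num)).1 h1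
    exact y_mono.injective h2
  apply hQ
  apply Polynomial.eq_zero_of_infinite_isRoot
  refine (Set.infinite_range_of_injective hinj).mono ?_
  rintro _ ⟨n, rfl⟩
  exact hroot n

/-- Sanity check of the definition: `π/2` is a Yang Lo direction of the exponential function. -/
theorem exp_direction : IsYangLoDirection Complex.exp (Real.pi / 2) := by
  intro ε hε
  right
  intro k _ w hw
  -- the solutions `log w + 2 π i j`
  set s : ℕ → ℂ := fun j => Complex.log w + (j : ℂ) * (2 * Real.pi * Complex.I) with hs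
  have hinj : Function.Injective s := by
    intro a b hab
    have h1 : (2 * Real.pi * Complex.I : ℂ) ≠ 0 := Complex.two_pi_I_ne_zero
    have h2 : (a : ℂ) * (2 * Real.pi * Complex.I) = (b : ℂ) * (2 * Real.pi * Complex.I) := by
      simpa [hs] using hab
    exact_mod_cast mul_right_cancel₀ h1 h2
  have hlim : Tendsto (fun j : ℕ => Complex.arg (s j)) atTop (𝓝 (Real.pi / 2)) := by
    have h1 : Tendsto (fun j : ℕ => Complex.log w * ((j : ℂ))⁻¹ + 2 * Real.pi * Complex.I) atTop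
        (𝓝 (2 * Real.pi * Complex.I)) := by
      have := (tendsto_inv_atTop_nhds_zero_nat (𝕜 := ℂ)).const_mul (Complex.log w)
      simpa using this.add_const (2 * Real.pi * Complex.I : ℂ)
    have h3 : Complex.arg (2 * Real.pi * Complex.I) = Real.pi / 2 := by
      have := Complex.arg_real_mul Complex.I (show (0:ℝ) < 2 * Real.pi by positivity)
      push_cast at this
      rw [this, Complex.arg_I]
    have h2 : ContinuousAt Complex.arg (2 * Real.pi * Complex.I) := by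
      apply Complex.continuousAt_arg
      right
      have := Real.pi_pos
      simp
    have h4 := h2.tendsto.comp h1
    rw [h3] at h4
    refine h4.congr' ?_
    filter_upwards [eventually_gt_atTop 0] with j hj
    have hj' : (0:ℝ) < (j : ℝ) := by exact_mod_cast hj
    have := Complex.arg_real_mul (Complex.log w * ((j : ℂ))⁻¹ + 2 * Real.pi * Complex.I) hj'
    simp only [Function.comp]
    rw [← this, hs]
    congr 1
    have hjc : (j : ℂ) ≠ 0 := by exact_mod_cast hj.ne'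
    push_cast
    field_simp
  obtain ⟨J, hJ⟩ := eventually_atTop.1 ((Metric.tendsto_nhds.1 hlim ε hε).and (eventually_gt_atTop 0))
  have hinf : (s '' Set.Ici J).Infinite := (Set.Ici_infinite J).image hinj.injOn
  refine hinf.mono ?_
  rintro _ ⟨j, hj, rfl⟩
  obtain ⟨hj1, hj2⟩ := hJ j hj
  refine ⟨⟨‖s j‖, Complex.arg (s j), ?_, ?_, ?_⟩, ?_, ?_⟩
  · rw [norm_pos_iff]
    intro h0
    rw [h0, Complex.arg_zero, Real.dist_eq] at hj1
    have him : (s j).im = Complex.arg w + j * (2 * Real.pi) := by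
      rw [hs]
      simp [Complex.log_im]
    rw [h0] at him
    have h5 := Complex.neg_pi_lt_arg w
    have h6 : (1:ℝ) ≤ j := by exact_mod_cast hj2
    have := Real.pi_pos
    rw [Complex.zero_im] at him
    nlinarith
  · rwa [Real.dist_eq] at hj1
  · exact (Complex.norm_mul_exp_arg_mul_I (s j)).symm
  · exact Complex.differentiable_exp.analyticAt _
  · rw [iteratedDeriv_eq_iterate, Complex.iter_deriv_exp, hs]
    simp only
    rw [Complex.exp_add, Complex.exp_log hw, Complex.exp_nat_mul_two_pi_mul_I, mul_one]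

/-- There is a meromorphic function in the plane (in normal form: analytic off its poles, value
`0` at the poles), not rational, that has no Yang Lo direction. -/
theorem result : ∃ f : ℂ → ℂ, MeromorphicNFOn f univ ∧ ¬ IsRational f ∧
    ∀ θ₀ : ℝ, ¬ IsYangLoDirection f θ₀ :=
  ⟨fN, fN_NF, not_rational, no_direction⟩

end Pool.Agent.Results.MP_bf5cf5_an.NoYangLoDirection
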